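import Pool.Agent.H16.CS.Targets

set_option autoImplicit false

open Polynomial

namespace Pool.Agent.H54.CS

open Pool.Agent.H16.CS

theorem nil : T_NIL := by
  intro K Ω _ _ _ _ V _ _ _ f c h
  have hmon : (f.charpoly.map (algebraMap K Ω)).Monic := (LinearMap.charpoly_monic f).map _
  have hsplit : (f.charpoly.map (algebraMap K Ω)).Splits := IsAlgClosed.splits _
  have hdeg : (f.charpoly.map (algebraMap K Ω)).natDegree = Module.finrank K V := by
    rw [(LinearMap.charpoly_monic f).natDegree_map, LinearMap.charpoly_natDegree]
  have hcard : Multiset.card (f.charpoly.map (algebraMap K Ω)).roots = Module.finrank K V := by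
    rw [← hdeg]
    exact hsplit.natDegree_eq_card_roots.symm
  have hroots : (f.charpoly.map (algebraMap K Ω)).roots =
      Multiset.replicate (Module.finrank K V) (algebraMap K Ω c) := by
    rw [Multiset.eq_replicate]
    exact ⟨hcard, h⟩
  have hprod : f.charpoly.map (algebraMap K Ω) =
      ((f.charpoly.map (algebraMap K Ω)).roots.map (fun a => X - C a)).prod :=
    hsplit.eq_prod_roots_of_monic hmon
  have h1 : f.charpoly.map (algebraMap K Ω) =
      ((X - C c) ^ Module.finrank K V).map (algebraMap K Ω) := by
    rw [hprod, hroots, Multiset.map_replicate, Multiset.prod_replicate]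
    simp
  have h2 : f.charpoly = (X - C c) ^ Module.finrank K V :=
    Polynomial.map_injective _ (algebraMap K Ω).injective h1
  have h3 := LinearMap.aeval_self_charpoly f
  rw [h2] at h3
  simpa using h3

end Pool.Agent.H54.CS
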